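import Mathlib
import Pool.Agent.H32.Shift

namespace Pool.Agent.Results.MP_b90bcc_co.Counter

open Pool.Agent.H32.Shift

/-- `A` is the arc relation of a tournament. -/
def IsTour {V : Type} (A : V → V → Prop) : Prop :=
  (∀ v, ¬ A v v) ∧ ∀ u v, u ≠ v → (A u v ↔ ¬ A v u)

/-- The partial order decomposition number. -/
noncomputable def pod {V : Type} (A : V → V → Prop) : ℕ :=
  sInf {m | ∃ P : Fin m → V → V → Prop, (∀ i a b, P i a b → A a b) ∧
    (∀ i a b c, P i a b → P i b c → P i a c) ∧ ∀ a b, A a b → ∃ i, P i a b}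

theorem main (k N : ℕ) (hk : 3 ≤ k) : ∃ (n : ℕ) (A : Fin n → Fin n → Prop), IsTour A ∧ N ≤ pod A ∧
    ∀ X : Finset (Fin n), X.card ≤ k → pod (fun a b : X => A a b) < 4 := by
  classical
  obtain ⟨n, G, g1, g2, g3⟩ := exists_graph k (Set (Fin N))
  refine ⟨n, fun a b => (a < b ∧ ¬ G a b) ∨ (b < a ∧ G a b), ⟨fun v => by simp, fun u v h => ?_⟩,
    ?_, fun X hX => ?_⟩
  · have := g1 u v
    have := g1 v u
    rcases lt_or_gt_of_ne h with h | h
    · have := lt_asymm h
      tauto
    · have := lt_asymm h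
      tauto
  · refine le_csInf ?_ ?_
    · refine ⟨n * n, fun i a b => finProdFinEquiv (a, b) = i ∧ ((a < b ∧ ¬ G a b) ∨ (b < a ∧ G a b)),
        fun i a b h => h.2, fun i a b c h h' => ?_, fun a b h => ⟨_, rfl, h⟩⟩
      have := finProdFinEquiv.injective (h.1.trans h'.1.symm)
      simp only [Prod.mk.injEq] at this
      obtain ⟨rfl, rfl⟩ := this
      exact h
    · rintro m ⟨P, p1, p2, p3⟩
      by_contra hm
      have hm' : m ≤ N := by omega
      have key : ∀ a b, b < a → G a b →
          {i : Fin N | ∃ j w, Fin.castLE hm' j = i ∧ P j a w ∧ w < a} ≠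
          {i : Fin N | ∃ j w, Fin.castLE hm' j = i ∧ P j b w ∧ w < b} := by
        intro a b hba hG e
        obtain ⟨i, hi⟩ := p3 a b (Or.inr ⟨hba, hG⟩)
        have : Fin.castLE hm' i ∈ {i : Fin N | ∃ j w, Fin.castLE hm' j = i ∧ P j a w ∧ w < a} :=
          ⟨i, b, rfl, hi, hba⟩
        rw [e] at this
        obtain ⟨j, w, e1, h1, h2⟩ := this
        have := Fin.castLE_injective hm' e1
        subst this
        have a1 : G b w := by
          rcases p1 _ _ _ h1 with h | h
          · exact absurd h.1 (lt_asymm h2)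
          · exact h.2
        have a2 : G a w := by
          rcases p1 _ _ _ (p2 _ _ _ _ hi h1) with h | h
          · exact absurd h.1 (lt_asymm (h2.trans hba))
          · exact h.2
        obtain ⟨col, hc⟩ := g2 {a, b, w} (Finset.card_le_three.trans hk)
        have c1 := hc a (by simp) b (by simp) hG
        have c2 := hc b (by simp) w (by simp) a1
        have c3 := hc a (by simp) w (by simp) a2
        revert c1 c2 c3
        cases col a <;> cases col b <;> cases col w <;> simp
      obtain ⟨a, b, hG, e⟩ := g3 fun a => {i : Fin N | ∃ j w, Fin.castLE hm' j = i ∧ P j a w ∧ w < a}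
      rcases lt_trichotomy a b with h | h | h
      · exact key b a h (g1 _ _ hG) e.symm
      · subst h
        obtain ⟨col, hc⟩ := g2 {a} (by simp; omega)
        exact hc a (by simp) a (by simp) hG rfl
      · exact key a b h hG e
  · obtain ⟨col, hc⟩ := g2 X hX
    refine lt_of_le_of_lt (Nat.sInf_le (m := 3) ⟨![fun a b => a.1 < b.1 ∧ col a = col b,
      fun a b => ((a.1 < b.1 ∧ ¬ G a b) ∨ (b.1 < a.1 ∧ G a b)) ∧ col a = true ∧ col b = false,
      fun a b => ((a.1 < b.1 ∧ ¬ G a b) ∨ (b.1 < a.1 ∧ G a b)) ∧ col a = false ∧ col b = true],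
      ?_, ?_, ?_⟩) (by norm_num)
    · intro i a b h
      fin_cases i
      · exact Or.inl ⟨h.1, fun hG => hc a a.2 b b.2 hG h.2⟩
      · exact h.1
      · exact h.1
    · intro i a b c h h'
      fin_cases i
      · exact ⟨h.1.trans h'.1, h.2.trans h'.2⟩
      · exact absurd (h.2.2.symm.trans h'.2.1) (by simp)
      · exact absurd (h.2.2.symm.trans h'.2.1) (by simp)
    · intro a b h
      by_cases e : col a = col b
      · refine ⟨0, ?_, e⟩
        rcases h with h | h
        · exact h.1
        · exact absurd e (hc a a.2 b b.2 h.2)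
      · cases ha : col a
        · exact ⟨2, h, ha, by simpa [ha] using e⟩
        · exact ⟨1, h, ha, by simpa [ha] using e⟩

theorem result : ∃ k s : ℕ, 0 < k ∧ 0 < s ∧
    (∃ (n : ℕ) (A : Fin n → Fin n → Prop), n ≤ k ∧ IsTour A ∧ s ≤ pod A) ∧
    ∀ N : ℕ, ∃ (n : ℕ) (A : Fin n → Fin n → Prop), IsTour A ∧ N ≤ pod A ∧
      ∀ X : Finset (Fin n), X.card ≤ k → pod (fun a b : X => A a b) < s := by
  obtain ⟨n, A, h1, h2, _⟩ := main 3 4 le_rfl
  exact ⟨n + 3, 4, by omega, by omega, ⟨n, A, by omega, h1, h2⟩, fun N => main _ N (by omega)⟩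

end Pool.Agent.Results.MP_b90bcc_co.Counter
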